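import Pool.Agent.N886.SE.Gen
import Pool.Agent.TH419.FS.Consts

/-!
# Integers `n` for which `n ^ π` or `n ^ e` is very close to a rational number

For every `H ≥ 2` the integers `n ≤ H` for which `n ^ π` is within `exp (- C (log H) ^ 15)` of a rational number with
denominator at most `H` are few: any three of them are multiplicatively dependent, at most two of them are primes, and
at most `(log N / log 2 + 1) ^ 2` of them are at most `N`, for every `N ≤ H`.  The same holds for `n ^ e`, and for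
`n ^ θ` if `|q θ - p| ≥ exp (- κ q)` for all integers `p` and `q ≥ 1`.

The proof: an interpolation determinant of the exponential functions with the real frequencies `a + b θ` at the real
points `h₁ log n₁ + h₂ log n₂ + h₃ log n₃` lies between two explicit positive bounds (a recursion for determinants of
exponentials as integrals over interlacing points).  If the three powers are very close to rational numbers, the
corresponding rational determinant is positive as well, and too small for its denominator.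
-/

set_option autoImplicit false

namespace Pool.Agent.Results.MP_ee2255_nt.NearRationalPowers

open Pool.Agent.N886.SE

/-- `|q θ - p| ≥ exp (- κ q)` for all integers `p` and `q ≥ 1`, for some constant `κ` -/
def Moderate (θ : ℝ) : Prop :=
  ∃ κ : ℝ, ∀ q : ℕ, 1 ≤ q → ∀ p : ℤ, Real.exp (-(κ * q)) ≤ |(q : ℝ) * θ - p|

/-- the integers `n`, `2 ≤ n ≤ H`, for which `n ^ θ` is within `exp (- C (log H) ^ 15)` of a rational number `p / q` with
`1 ≤ q ≤ H` -/
def Near (θ C : ℝ) (H : ℕ) : Set ℕ :=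
  {n | 2 ≤ n ∧ n ≤ H ∧ ∃ (p : ℤ) (q : ℕ), 1 ≤ q ∧ q ≤ H ∧
    |(n : ℝ) ^ θ - (p : ℝ) / (q : ℝ)| ≤ Real.exp (-(C * Real.log H ^ 15))}

theorem moderate_of {θ c s : ℝ} (hc : 0 < c) (hs : 0 ≤ s)
    (h : ∀ q : ℕ, 1 ≤ q → ∀ p : ℤ, c ≤ (q : ℝ) ^ s * |(q : ℝ) * θ - p|) : Moderate θ := by
  refine ⟨|Real.log c| + s, fun q hq p => ?_⟩
  have hqR : (1 : ℝ) ≤ q := by exact_mod_cast hq
  have hq0 : (0 : ℝ) < q := by linarith
  have h1 := h q hq p
  have hlq : Real.log q ≤ q := (Real.log_le_sub_one_of_pos hq0).trans (by linarith)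
  have h2 : (q : ℝ) ^ s = Real.exp (Real.log q * s) := Real.rpow_def_of_pos hq0 s
  have h3 : Real.exp (-((|Real.log c| + s) * q)) * (q : ℝ) ^ s ≤ c := by
    rw [h2, ← Real.exp_add]
    calc Real.exp (-((|Real.log c| + s) * q) + Real.log q * s) ≤ Real.exp (Real.log c) := by
          refine Real.exp_le_exp.2 ?_
          have e1 : Real.log q * s ≤ q * s := mul_le_mul_of_nonneg_right hlq hs
          have e2 : |Real.log c| ≤ |Real.log c| * q := le_mul_of_one_le_right (abs_nonneg _) hqR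
          have e3 := neg_abs_le (Real.log c)
          nlinarith
      _ = c := Real.exp_log hc
  have h4 : 0 < (q : ℝ) ^ s := Real.rpow_pos_of_pos hq0 s
  have h5 : Real.exp (-((|Real.log c| + s) * q)) * (q : ℝ) ^ s ≤ |(q : ℝ) * θ - p| * (q : ℝ) ^ s := by
    refine h3.trans (h1.trans (le_of_eq (mul_comm _ _)))
  exact le_of_mul_le_mul_right h5 h4

theorem moderate_pi : Moderate Real.pi := by
  obtain ⟨c, hc, h⟩ := Pool.Agent.TH419.FS.meas_pi
  exact moderate_of hc (by norm_num) h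

theorem moderate_e : Moderate (Real.exp 1) := by
  obtain ⟨c, hc, h⟩ := Pool.Agent.TH419.FS.meas_exp (η := 1) one_pos
  exact moderate_of hc (by norm_num) h

/-- **Main result.** -/
theorem result :
    (Moderate Real.pi ∧ Moderate (Real.exp 1)) ∧
    ∀ θ : ℝ, 0 < θ → Moderate θ → ∃ C : ℝ, 0 < C ∧ ∀ H : ℕ, 2 ≤ H →
      (∀ a ∈ Near θ C H, ∀ b ∈ Near θ C H, ∀ c ∈ Near θ C H,
        ∃ x y z : ℤ, (x ≠ 0 ∨ y ≠ 0 ∨ z ≠ 0) ∧ (a : ℚ) ^ x * (b : ℚ) ^ y * (c : ℚ) ^ z = 1) ∧
      {p | p ∈ Near θ C H ∧ p.Prime}.ncard ≤ 2 ∧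
      ∀ N : ℕ, N ≤ H → {n | n ∈ Near θ C H ∧ n ≤ N}.ncard ≤ (Nat.log 2 N + 1) ^ 2 := by
  refine ⟨⟨moderate_pi, moderate_e⟩, ?_⟩
  rintro θ hθ ⟨κ, hκ⟩
  have hκ' : ∀ q : ℕ, 1 ≤ q → ∀ p : ℤ, Real.exp (-(max κ 0 * q)) ≤ |(q : ℝ) * θ - p| := fun q hq p =>
    (Real.exp_le_exp.2 (neg_le_neg (mul_le_mul_of_nonneg_right (le_max_left _ _) (Nat.cast_nonneg _)))).trans
      (hκ q hq p)
  refine ⟨(max κ 0 + 2) * (1001 * (1 + θ)) ^ 15, ?_, fun H hH => ?_⟩
  · have : 0 ≤ max κ 0 := le_max_right _ _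
    positivity
  set C : ℝ := (max κ 0 + 2) * (1001 * (1 + θ)) ^ 15 with hC
  have hdep : ∀ a ∈ Near θ C H, ∀ b ∈ Near θ C H, ∀ c ∈ Near θ C H,
      ∃ x y z : ℤ, (x ≠ 0 ∨ y ≠ 0 ∨ z ≠ 0) ∧ (a : ℚ) ^ x * (b : ℚ) ^ y * (c : ℚ) ^ z = 1 := by
    intro a ha b hb c hc
    exact three hθ (le_max_right _ _) hκ' le_rfl hH ha.1 hb.1 hc.1 ha.2.1 hb.2.1 hc.2.1 ha.2.2 hb.2.2 hc.2.2
  have hfin : (Near θ C H).Finite := (Set.finite_Iic H).subset fun n hn => hn.2.1
  refine ⟨hdep, ?_, fun N _ => ?_⟩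
  · have hf : {p | p ∈ Near θ C H ∧ p.Prime}.Finite := hfin.subset fun n hn => hn.1
    rw [Set.ncard_eq_toFinset_card _ hf]
    refine primes_card_le _ (fun n hn => ?_) fun a ha b hb c hc => ?_
    · exact ((Set.Finite.mem_toFinset hf).1 hn).2
    · exact hdep a ((Set.Finite.mem_toFinset hf).1 ha).1 b ((Set.Finite.mem_toFinset hf).1 hb).1 c
        ((Set.Finite.mem_toFinset hf).1 hc).1
  · have hf : {n | n ∈ Near θ C H ∧ n ≤ N}.Finite := hfin.subset fun n hn => hn.1
    rw [Set.ncard_eq_toFinset_card _ hf]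
    refine card_le _ N (fun n hn => ?_) fun a ha b hb c hc => ?_
    · have h := (Set.Finite.mem_toFinset hf).1 hn
      exact ⟨h.1.1, h.2⟩
    · exact hdep a ((Set.Finite.mem_toFinset hf).1 ha).1 b ((Set.Finite.mem_toFinset hf).1 hb).1 c
        ((Set.Finite.mem_toFinset hf).1 hc).1

end Pool.Agent.Results.MP_ee2255_nt.NearRationalPowers
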