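import Pool.Agent.N375.AV.D
import Pool.Agent.Results.MP_ee2255_nt.NearRationalPowers

/-!
# The numbers `n ^ π` and `n ^ e` for integers `n` near the values of additive functions

Let `F = f_1 ∘ ⋯ ∘ f_k` be a composition of functions dominated by the largest prime factor: for example additive functions
`f` with `f (q^j) ≤ C q^j` at the prime powers and different values at different large primes (the sum of the prime
factors), the largest prime factor itself, and Kempner's function. For almost all `m ≤ N` (all but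
`K N exp (- c (log N)^(1 / (k + 1)))`) ALL integers `n` within `F(m)^κ` of `G (F m)` (`κ < 1`, `G` expanding, for example
`G v = a v ^ d`) have the following property: `n ^ π` and `n ^ e` are at a distance larger than
`exp (- C (log max (n, q)) ^ 15)` from ALL rational numbers `p / q` with denominator
`q ≤ exp (exp (c (log N)^(1 / (k + 1))))`.

Proof. By the theorem `NearRationalPowers` of this problem, at each scale `H` at most `(log N / log 2 + 1) ^ 2` of the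
integers up to `N` are exceptional, uniformly in `H`. The tool of `Pool.Agent.N375.AV` (preimages of thin sets under
functions dominated by the largest prime factor) is uniform, and the scales `2 ^ (2 ^ j)` cover all `H`.
-/

set_option autoImplicit false

namespace Pool.Agent.Results.MP_ee2255_nt.AdditiveValues

open Pool.Agent.N733.TG (Expanding expanding_pow)
open Pool.Agent.N375.AV (PD comp windows_unif pd_additive pd_largest pd_kempner)
open Pool.Agent.Results.MP_ee2255_nt.NearRationalPowers (Moderate Near)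

/-- the reach `exp (exp (c (log N)^(1 / (k + 1))))` -/
noncomputable def T (c : ℝ) (k N : ℕ) : ℝ := Real.exp (Real.exp (c * Real.log N ^ ((1 : ℝ) / (k + 1))))

/-- `n ^ θ` is at a distance larger than `exp (- C (log max (n, q)) ^ 15)` from all rational numbers `p / q` with
`1 ≤ q ≤ T` -/
def Far (θ C T : ℝ) (n : ℕ) : Prop := ∀ (p : ℤ) (q : ℕ), 1 ≤ q → (q : ℝ) ≤ T →
  Real.exp (-(C * Real.log (max n q : ℕ) ^ 15)) < |(n : ℝ) ^ θ - (p : ℝ) / (q : ℝ)|

/-- the count at one scale -/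
lemma count {θ C : ℝ} {s : ℝ} (hs : 0 < s)
    (hC : ∀ H : ℕ, 2 ≤ H → ∀ N : ℕ, N ≤ H → {n | n ∈ Near θ C H ∧ n ≤ N}.ncard ≤ (Nat.log 2 N + 1) ^ 2) (H : ℕ)
    (hH : 2 ≤ H) (X : ℝ) (hX : 1 ≤ X) :
    {t | t ∈ Near θ C H ∧ (t : ℝ) ≤ X}.Finite ∧
      ({t | t ∈ Near θ C H ∧ (t : ℝ) ≤ X}.ncard : ℝ) ≤ (2 / (s * Real.log 2) + 1) ^ 2 * X ^ s := by
  have hfin : {t | t ∈ Near θ C H ∧ (t : ℝ) ≤ X}.Finite := (Set.finite_Iic H).subset fun n hn => hn.1.2.1
  refine ⟨hfin, ?_⟩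
  have hN : (1 : ℕ) ≤ ⌊X⌋₊ := Nat.le_floor (by exact_mod_cast hX)
  have h1 : {t | t ∈ Near θ C H ∧ (t : ℝ) ≤ X} ⊆ {n | n ∈ Near θ C H ∧ n ≤ min ⌊X⌋₊ H} := by
    rintro t ⟨h2, h3⟩
    exact ⟨h2, le_min (Nat.le_floor h3) h2.2.1⟩
  have h2 := (Set.ncard_le_ncard h1 ((Set.finite_Iic H).subset fun n hn => hn.1.2.1)).trans
    (hC H hH (min ⌊X⌋₊ H) (min_le_right _ _))
  have h3 : Nat.log 2 (min ⌊X⌋₊ H) ≤ Nat.log 2 ⌊X⌋₊ := Nat.log_mono_right (min_le_left _ _)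
  have h4 : (Nat.log 2 ⌊X⌋₊ : ℝ) * Real.log 2 ≤ Real.log X := by
    have h5 : (2 : ℕ) ^ Nat.log 2 ⌊X⌋₊ ≤ ⌊X⌋₊ := Nat.pow_log_le_self 2 (by omega)
    have h6 : ((2 : ℕ) ^ Nat.log 2 ⌊X⌋₊ : ℝ) ≤ X :=
      le_trans (by exact_mod_cast h5) (Nat.floor_le (by linarith))
    have h7 := Real.log_le_log (by positivity) h6
    rwa [Real.log_pow, Nat.cast_ofNat] at h7
  have hl2 : 0 < Real.log 2 := Real.log_pos (by norm_num)
  have h5 : Real.log X ≤ X ^ (s / 2) / (s / 2) := Real.log_le_rpow_div (by linarith) (by linarith)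
  have h6 : 1 ≤ X ^ (s / 2) := Real.one_le_rpow hX (by linarith)
  have h7 : (Nat.log 2 ⌊X⌋₊ : ℝ) + 1 ≤ (2 / (s * Real.log 2) + 1) * X ^ (s / 2) := by
    have h8 : (Nat.log 2 ⌊X⌋₊ : ℝ) ≤ 2 / (s * Real.log 2) * X ^ (s / 2) := by
      have h9 : (Nat.log 2 ⌊X⌋₊ : ℝ) ≤ Real.log X / Real.log 2 := by
        rw [le_div_iff₀ hl2]
        exact h4
      refine h9.trans ?_
      rw [div_le_iff₀ hl2]
      refine h5.trans (le_of_eq ?_)
      field_simp
    linarith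
  calc ({t | t ∈ Near θ C H ∧ (t : ℝ) ≤ X}.ncard : ℝ) ≤ ((Nat.log 2 ⌊X⌋₊ : ℝ) + 1) ^ 2 := by
        have h8 : {t | t ∈ Near θ C H ∧ (t : ℝ) ≤ X}.ncard ≤ (Nat.log 2 ⌊X⌋₊ + 1) ^ 2 :=
          h2.trans (Nat.pow_le_pow_left (by omega) 2)
        exact_mod_cast h8
    _ ≤ ((2 / (s * Real.log 2) + 1) * X ^ (s / 2)) ^ 2 := pow_le_pow_left₀ (by positivity) h7 2
    _ = (2 / (s * Real.log 2) + 1) ^ 2 * X ^ s := by
        rw [mul_pow, ← Real.rpow_natCast (X ^ (s / 2)) 2, ← Real.rpow_mul (by linarith)]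
        congr 2
        push_cast
        ring

/-- the scales `2 ^ (2 ^ j)` -/
lemma scale {y : ℝ} (hy : 0 ≤ y) {H : ℕ} (hH : 2 ≤ H) (hHT : (H : ℝ) ≤ Real.exp (Real.exp y)) :
    ∃ j < ⌊2 * y⌋₊ + 3, H ≤ 2 ^ 2 ^ j ∧ Real.log ((2 ^ 2 ^ j : ℕ) : ℝ) ≤ 2 * Real.log H := by
  classical
  have hl2 : 0 < Real.log 2 := Real.log_pos (by norm_num)
  have hl2' : (1 : ℝ) / 2 < Real.log 2 := by linarith [Real.log_two_gt_d9]
  have hex : ∃ j : ℕ, H ≤ 2 ^ 2 ^ j :=
    ⟨H, (Nat.lt_two_pow_self).le.trans (Nat.pow_le_pow_right (by norm_num) (Nat.lt_two_pow_self).le)⟩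
  have hH0 : (0 : ℝ) < H := by exact_mod_cast (by omega : 0 < H)
  have hlogH : 0 < Real.log H := Real.log_pos (by exact_mod_cast (by omega : 1 < H))
  obtain ⟨j, hj⟩ : ∃ j, j = Nat.find hex := ⟨_, rfl⟩
  have hj1 : H ≤ 2 ^ 2 ^ j := by rw [hj]; exact Nat.find_spec hex
  have hlog : ∀ i : ℕ, Real.log ((2 ^ 2 ^ i : ℕ) : ℝ) = 2 ^ i * Real.log 2 := fun i => by
    push_cast
    rw [Real.log_pow]
    push_cast
    ring
  rcases Nat.eq_zero_or_pos j with h0 | hpos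
  · refine ⟨j, by omega, hj1, ?_⟩
    rw [hlog, h0, pow_zero, one_mul]
    have h3 : Real.log 2 ≤ Real.log H := Real.log_le_log (by norm_num) (by exact_mod_cast hH)
    linarith
  · have hlt : 2 ^ 2 ^ (j - 1) < H := by
      by_contra hcon
      push Not at hcon
      have := Nat.find_min' hex hcon
      omega
    have h4 : 2 ^ (j - 1) * Real.log 2 < Real.log H := by
      rw [← hlog]
      exact Real.log_lt_log (by positivity) (by exact_mod_cast hlt)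
    have h5 : (2 : ℝ) ^ j = 2 * 2 ^ (j - 1) := by
      rw [← pow_succ']
      congr 1
      omega
    refine ⟨j, ?_, hj1, ?_⟩
    · -- `2 ^ (j - 1) log 2 < exp y`
      have h6 : Real.log H ≤ Real.exp y := by
        rw [Real.log_le_iff_le_exp hH0]
        exact hHT
      have h7 : 2 ^ (j - 1) * Real.log 2 < Real.exp y := h4.trans_le h6
      have h8 : (2 : ℝ) ^ (j - 1) < 2 * Real.exp y := by nlinarith [Real.exp_pos y]
      have h9 := Real.log_lt_log (by positivity) h8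
      rw [Real.log_pow, Real.log_mul (by norm_num) (Real.exp_pos y).ne', Real.log_exp] at h9
      have h10 : ((j - 1 : ℕ) : ℝ) < 2 * y + 1 := by
        by_contra hcon
        push Not at hcon
        have h11 : (2 * y + 1) * Real.log 2 ≤ ((j - 1 : ℕ) : ℝ) * Real.log 2 :=
          mul_le_mul_of_nonneg_right hcon hl2.le
        nlinarith
      have h12 : 2 * y < (⌊2 * y⌋₊ : ℝ) + 1 := Nat.lt_floor_add_one _
      have h13 : ((j - 1 : ℕ) : ℝ) < ((⌊2 * y⌋₊ + 2 : ℕ) : ℝ) := by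
        push_cast
        linarith
      have h14 : j - 1 < ⌊2 * y⌋₊ + 2 := by exact_mod_cast h13
      omega
    · rw [hlog, h5]
      linarith

/-- **Main result.** -/
theorem result :
    (Moderate Real.pi ∧ Moderate (Real.exp 1)) ∧
    (∀ θ : ℝ, 0 < θ → Moderate θ → ∃ C : ℝ, 0 < C ∧
      ∀ fs : List (ℕ → ℕ), (∀ f ∈ fs, PD f) → ∀ (G : ℕ → ℝ) (d : ℝ), Expanding G d → ∀ κ : ℝ, 0 ≤ κ → κ < 1 →
      ∃ c K : ℝ, 0 < c ∧ ∀ N : ℕ, 1 ≤ N →
      ({m : ℕ | 1 ≤ m ∧ m ≤ N ∧ ¬ ∀ n : ℕ, 2 ≤ n → (n : ℝ) ≤ T c fs.length N →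
        |(n : ℝ) - G (comp fs m)| ≤ (comp fs m : ℝ) ^ κ → Far θ C (T c fs.length N) n}.ncard : ℝ) ≤
        K * N * Real.exp (-(c * Real.log N ^ ((1 : ℝ) / (fs.length + 1))))) ∧
    (∀ f : ℕ → ℕ, (∀ a b : ℕ, Nat.Coprime a b → f (a * b) = f a + f b) →
      (∃ C : ℕ, ∀ q j : ℕ, q.Prime → 1 ≤ j → f (q ^ j) ≤ C * q ^ j) →
      (∃ P : ℕ, ∀ p q : ℕ, p.Prime → q.Prime → P ≤ p → P ≤ q → f p = f q → p = q) → PD f) ∧
    (PD (fun n => n.primeFactors.sup id) ∧ PD (fun n => sInf {k : ℕ | n ∣ k.factorial})) ∧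
    ∀ α d : ℝ, 0 < α → 1 ≤ d → Expanding (fun v => α * (v : ℝ) ^ d) d := by
  classical
  obtain ⟨hmod, hmain⟩ := Pool.Agent.Results.MP_ee2255_nt.NearRationalPowers.result
  refine ⟨hmod, ?_, fun f h2 h3 h4 => pd_additive h2 h3 h4, ⟨pd_largest, pd_kempner⟩,
    fun α d hα hd => expanding_pow hα hd⟩
  intro θ hθ hθm
  obtain ⟨C, hC, hCH⟩ := hmain θ hθ hθm
  refine ⟨2 ^ 15 * C, by positivity, ?_⟩
  intro fs hfs G d hG κ hκ hκ1
  have hd := hG.one_le
  obtain ⟨s, hs⟩ : ∃ s, s = (1 - κ) / (2 * d) := ⟨_, rfl⟩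
  have hs0 : 0 < s := by
    rw [hs]
    apply div_pos (by linarith) (by linarith)
  have hds : d * s + κ < 1 := by
    have : d * s = (1 - κ) / 2 := by
      rw [hs]
      field_simp
    rw [this]
    linarith
  obtain ⟨c₀, K₀, hc₀, hK₀⟩ := windows_unif (fun t : ℕ => (t : ℝ)) fs hfs hG hs0.le hκ hds
    ((2 / (s * Real.log 2) + 1) ^ 2)
  refine ⟨c₀ / 2, 3 * |K₀|, by positivity, fun N hN => ?_⟩
  obtain ⟨L, hL⟩ : ∃ L, L = Real.log N ^ ((1 : ℝ) / (fs.length + 1)) := ⟨_, rfl⟩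
  have hL0 : 0 ≤ L := by
    rw [hL]
    exact Real.rpow_nonneg (Real.log_natCast_nonneg N) _
  obtain ⟨y, hy⟩ : ∃ y, y = c₀ / 2 * L := ⟨_, rfl⟩
  have hy0 : 0 ≤ y := by rw [hy]; positivity
  have hT : T (c₀ / 2) fs.length N = Real.exp (Real.exp y) := by
    unfold T
    rw [hy, hL]
  obtain ⟨J, hJ⟩ : ∃ J, J = ⌊2 * y⌋₊ + 3 := ⟨_, rfl⟩
  obtain ⟨E, hE⟩ : ∃ E : ℕ → Finset ℕ, E = fun j => (Finset.range (N + 1)).filter (fun m => 1 ≤ m ∧
    ∃ t ∈ Near θ C (2 ^ 2 ^ j), |((t : ℕ) : ℝ) - G (comp fs m)| ≤ (comp fs m : ℝ) ^ κ) := ⟨_, rfl⟩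
  have hEcard : ∀ j, ((E j).card : ℝ) ≤ K₀ * N * Real.exp (-(c₀ * L)) := by
    intro j
    have h1 := hK₀ (Near θ C (2 ^ 2 ^ j)) (fun X hX => count hs0 (fun H hH => (hCH H hH).2.2) (2 ^ 2 ^ j)
      (by
        calc 2 = 2 ^ 1 := by norm_num
          _ ≤ 2 ^ 2 ^ j := Nat.pow_le_pow_right (by norm_num) (Nat.one_le_two_pow)) X hX) N hN
    rw [← hL] at h1
    refine le_trans (le_of_eq ?_) h1
    rw [← Set.ncard_coe_finset, hE]
    congr 2
    ext m
    simp only [Finset.coe_filter, Finset.mem_range, Set.mem_ofPred_eq]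
    constructor
    · rintro ⟨a, b, e⟩
      exact ⟨b, by omega, e⟩
    · rintro ⟨a, b, e⟩
      exact ⟨by omega, a, e⟩
  have hsub : {m : ℕ | 1 ≤ m ∧ m ≤ N ∧ ¬ ∀ n : ℕ, 2 ≤ n → (n : ℝ) ≤ T (c₀ / 2) fs.length N →
      |(n : ℝ) - G (comp fs m)| ≤ (comp fs m : ℝ) ^ κ → Far θ (2 ^ 15 * C) (T (c₀ / 2) fs.length N) n} ⊆
      (((Finset.range J).biUnion E : Finset ℕ) : Set ℕ) := by
    rintro m ⟨hm1, hmN, hm⟩
    push Not at hm
    obtain ⟨n, hn2, hnT, hnG, hfar⟩ := hm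
    unfold Far at hfar
    push Not at hfar
    obtain ⟨p, q, hq1, hqT, hpq⟩ := hfar
    have hH2 : 2 ≤ max n q := hn2.trans (le_max_left _ _)
    have hHT : ((max n q : ℕ) : ℝ) ≤ Real.exp (Real.exp y) := by
      rw [← hT, Nat.cast_max]
      exact max_le hnT hqT
    obtain ⟨j, hjJ, hj1, hj2⟩ := scale hy0 hH2 hHT
    rw [Finset.coe_biUnion, Set.mem_iUnion₂]
    refine ⟨j, by rw [Finset.mem_coe, Finset.mem_range, hJ]; exact hjJ, ?_⟩
    rw [hE, Finset.mem_coe, Finset.mem_filter, Finset.mem_range]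
    refine ⟨by omega, hm1, n, ⟨hn2, (le_max_left _ _).trans hj1, p, q, hq1, (le_max_right _ _).trans hj1, ?_⟩, hnG⟩
    refine hpq.trans (Real.exp_le_exp.2 (neg_le_neg ?_))
    have h1 : 0 ≤ Real.log ((2 ^ 2 ^ j : ℕ) : ℝ) := Real.log_natCast_nonneg _
    calc C * Real.log ((2 ^ 2 ^ j : ℕ) : ℝ) ^ 15 ≤ C * (2 * Real.log ((max n q : ℕ) : ℝ)) ^ 15 :=
          mul_le_mul_of_nonneg_left (pow_le_pow_left₀ h1 hj2 15) hC.le
      _ = 2 ^ 15 * C * Real.log ((max n q : ℕ) : ℝ) ^ 15 := by ring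
  have h1 := Set.ncard_le_ncard hsub (Finset.finite_toSet _)
  rw [Set.ncard_coe_finset] at h1
  have h2 : (((Finset.range J).biUnion E).card : ℝ) ≤ J * (|K₀| * N * Real.exp (-(c₀ * L))) := by
    have h3 : (((Finset.range J).biUnion E).card : ℝ) ≤ ∑ j ∈ Finset.range J, ((E j).card : ℝ) := by
      exact_mod_cast Finset.card_biUnion_le
    refine h3.trans ?_
    have h4 : ∀ j ∈ Finset.range J, ((E j).card : ℝ) ≤ |K₀| * N * Real.exp (-(c₀ * L)) := fun j _ =>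
      (hEcard j).trans (mul_le_mul_of_nonneg_right (mul_le_mul_of_nonneg_right (le_abs_self _)
        (Nat.cast_nonneg _)) (Real.exp_pos _).le)
    have h5 := Finset.sum_le_sum h4
    rwa [Finset.sum_const, Finset.card_range, nsmul_eq_mul] at h5
  have h3 : (J : ℝ) ≤ 3 * Real.exp y := by
    have h4 : (J : ℝ) ≤ 2 * y + 3 := by
      rw [hJ]
      push_cast
      have := Nat.floor_le (a := 2 * y) (by positivity)
      linarith
    have h5 := Real.add_one_le_exp y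
    linarith
  calc (_ : ℝ) ≤ (((Finset.range J).biUnion E).card : ℝ) := by exact_mod_cast h1
    _ ≤ J * (|K₀| * N * Real.exp (-(c₀ * L))) := h2
    _ ≤ 3 * Real.exp y * (|K₀| * N * Real.exp (-(c₀ * L))) :=
        mul_le_mul_of_nonneg_right h3 (by positivity)
    _ = 3 * |K₀| * N * Real.exp (-(c₀ / 2 * L)) := by
        have h6 : Real.exp y * Real.exp (-(c₀ * L)) = Real.exp (-(c₀ / 2 * L)) := by
          rw [← Real.exp_add, hy]
          congr 1
          ring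
        rw [← h6]
        ring
    _ = _ := by rw [hL]

end Pool.Agent.Results.MP_ee2255_nt.AdditiveValues
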