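import Pool.Agent.N790.CM.C
import Pool.Agent.Results.MP_ee2255_nt.NearRationalPowers

/-!
# The powers `n ^ π` and `n ^ e` near all multiples of Carmichael's function of almost all integers

For every `B` and all `m ≤ N` but `N / (log N)^U`: for EVERY multiple `w ≤ N^B` of Carmichael's function `λ(m)` and ALL
integers `n = a w + h ≥ 2` with `1 ≤ a ≤ N^κ`, `|h| ≤ N^κ`, `κ < 1/2`, the numbers `n ^ π` and `n ^ e` are not within
`exp (-C ((B + 1) log N)^15)` of any rational number with denominator at most `N^(B + 1)`; in particular they are not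
rational numbers of this height. More generally `w` is any common multiple of the values `f(p)`, `p` running through the
large primes which divide `m` exactly once, where `f` takes each positive value at boundedly many primes.

The starting point is the theorem `NearRationalPowers` of this page: there are at most `(log_2 H + 1)^2` exceptional integers
up to `H`. But a single exceptional integer `w ≤ N^B` could be a multiple of `λ(m)` for more than `N^(1 - ε)` numbers `m ≤ N`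
(popular values), for every exceptional `w` in an arbitrarily sparse set. So this does not follow from the number of the
exceptional integers. The proof uses the tool `N790/CM` of helper790: outside a set of `N / (log N)^U` numbers `m ≤ N` every
`w ≤ N^B` is a common multiple for at most `N^δ` of the `m`.
-/

set_option autoImplicit false

namespace Pool.Agent.Results.MP_ee2255_nt.CarmichaelMultiples

open Finset
open Pool.Agent.N790.CM (FewTimes Carries scale fewTimes_pred pred_dvd_carmichael)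
open Pool.Agent.Results.MP_ee2255_nt.NearRationalPowers (Moderate Near)

/-- the exceptional `w` at the scale `N` -/
def Bad (θ C κ : ℝ) (N H : ℕ) : Set ℕ :=
  {w | ∃ (n : ℕ) (a h : ℤ), n ∈ Near θ C H ∧ 1 ≤ a ∧ (a : ℝ) ≤ (N : ℝ) ^ κ ∧ |(h : ℝ)| ≤ (N : ℝ) ^ κ ∧
    (n : ℤ) = a * w + h}

open Classical in
/-- the number of exceptional `w` -/
theorem bad_count {θ C κ B : ℝ} (hκ : 0 ≤ κ) (hκ2 : κ < 1 / 2) (hB : 0 ≤ B)
    (hC : ∀ H : ℕ, 2 ≤ H → {n | n ∈ Near θ C H ∧ n ≤ H}.ncard ≤ (Nat.log 2 H + 1) ^ 2) :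
    ∃ C₀ : ℝ, ∀ N : ℕ, 2 ≤ N → ∀ R : ℕ,
      (((Icc 1 R).filter (fun w => w ∈ Bad θ C κ N ⌊(N : ℝ) ^ (B + 1)⌋₊)).card : ℝ) ≤
        C₀ * (N : ℝ) ^ (κ + 1 / 2) := by
  set ε : ℝ := (1 / 2 - κ) / 2 with hε
  have hε0 : 0 < ε := by rw [hε]; linarith
  set K : ℝ := 2 * (B + 1) / ε + 1 with hK
  have hK0 : 0 < K := by rw [hK]; positivity
  refine ⟨3 * K ^ 2, fun N hN R => ?_⟩
  have hN2 : (2 : ℝ) ≤ N := by exact_mod_cast hN
  have hN0 : (0 : ℝ) < N := by linarith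
  have hN1 : (1 : ℝ) ≤ N := by linarith
  set H : ℕ := ⌊(N : ℝ) ^ (B + 1)⌋₊ with hH
  have hHle : (H : ℝ) ≤ (N : ℝ) ^ (B + 1) := Nat.floor_le (by positivity)
  have hH2 : 2 ≤ H := by
    apply Nat.le_floor
    calc ((2 : ℕ) : ℝ) = 2 := by norm_num
      _ ≤ (N : ℝ) := hN2
      _ = (N : ℝ) ^ (1 : ℝ) := (Real.rpow_one _).symm
      _ ≤ (N : ℝ) ^ (B + 1) := Real.rpow_le_rpow_of_exponent_le hN1 (by linarith)
  have hHr : (2 : ℝ) ≤ H := by exact_mod_cast hH2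
  have hfin : {n | n ∈ Near θ C H ∧ n ≤ H}.Finite := (Set.finite_Iic H).subset fun n hn => hn.2
  set E : Finset ℕ := hfin.toFinset with hE
  have hEcard : (E.card : ℝ) ≤ (K * (N : ℝ) ^ ε) ^ 2 := by
    have h1 := hC H hH2
    rw [Set.ncard_eq_toFinset_card _ hfin] at h1
    have h2 : (E.card : ℝ) ≤ ((Nat.log 2 H : ℝ) + 1) ^ 2 := by exact_mod_cast h1
    refine h2.trans (pow_le_pow_left₀ (by positivity) ?_ 2)
    have h3 : (Nat.log 2 H : ℝ) ≤ 2 * Real.log H := by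
      have h4 : ((2 : ℕ) : ℝ) ^ (Nat.log 2 H) ≤ H := by
        exact_mod_cast Nat.pow_log_le_self 2 (by omega)
      have h5 := Real.log_le_log (by positivity) h4
      rw [Real.log_pow] at h5
      have h6 : (1 / 2 : ℝ) ≤ Real.log 2 := by
        have := Real.log_two_gt_d9
        linarith
      have h7 : (0 : ℝ) ≤ (Nat.log 2 H : ℝ) := Nat.cast_nonneg _
      push_cast at h5
      nlinarith
    have h8 : Real.log H ≤ (B + 1) * Real.log N := by
      rw [← Real.log_rpow hN0]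
      exact Real.log_le_log (by linarith) hHle
    have h9 : Real.log N ≤ (N : ℝ) ^ ε / ε := Real.log_le_rpow_div hN0.le hε0
    have h10 : (1 : ℝ) ≤ (N : ℝ) ^ ε := Real.one_le_rpow hN1 hε0.le
    have h11 : (B + 1) * Real.log N ≤ (B + 1) * ((N : ℝ) ^ ε / ε) :=
      mul_le_mul_of_nonneg_left h9 (by linarith)
    calc (Nat.log 2 H : ℝ) + 1 ≤ 2 * ((B + 1) * ((N : ℝ) ^ ε / ε)) + (N : ℝ) ^ ε := by linarith
      _ = K * (N : ℝ) ^ ε := by rw [hK]; ring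
  -- the pairs
  set Y : ℝ := (N : ℝ) ^ κ with hY
  have hY1 : 1 ≤ Y := Real.one_le_rpow hN1 hκ
  set S : Finset (ℕ × ℤ × ℤ) := E ×ˢ (Icc (1 : ℤ) ⌊Y⌋ ×ˢ Icc (-⌊Y⌋) ⌊Y⌋) with hS
  have hsub : (Icc 1 R).filter (fun w => w ∈ Bad θ C κ N H) ⊆
      S.image (fun x : ℕ × ℤ × ℤ => (((x.1 : ℤ) - x.2.2) / x.2.1).toNat) := by
    intro w hw
    rw [mem_filter] at hw
    obtain ⟨-, n, a, h, hn, ha1, ha2, hh, hnw⟩ := hw
    rw [mem_image]
    refine ⟨(n, a, h), ?_, ?_⟩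
    · rw [hS, mem_product, mem_product, mem_Icc, mem_Icc]
      refine ⟨?_, ⟨ha1, Int.le_floor.2 ha2⟩, ?_, ?_⟩
      · rw [hE, Set.Finite.mem_toFinset]
        exact ⟨hn, hn.2.1⟩
      · have := (abs_le.1 hh).1
        have h2 : ((-h : ℤ) : ℝ) ≤ Y := by push_cast; linarith
        have h3 := Int.le_floor.2 h2
        show -⌊Y⌋ ≤ h
        omega
      · exact Int.le_floor.2 (abs_le.1 hh).2
    · show (((n : ℤ) - h) / a).toNat = w
      have h1 : (n : ℤ) - h = a * w := by rw [hnw]; ring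
      rw [h1, Int.mul_ediv_cancel_left _ (by omega)]
      exact Int.toNat_natCast w
  have hYf : (⌊Y⌋ : ℝ) ≤ Y := Int.floor_le Y
  have hYf0 : 0 ≤ ⌊Y⌋ := Int.floor_nonneg.2 (by linarith)
  have hc1 : ((Icc (1 : ℤ) ⌊Y⌋).card : ℝ) ≤ Y := by
    rw [Int.card_Icc]
    have : ((⌊Y⌋ + 1 - 1).toNat : ℤ) = ⌊Y⌋ := by omega
    have h2 : (((⌊Y⌋ + 1 - 1).toNat : ℕ) : ℝ) = (⌊Y⌋ : ℝ) := by exact_mod_cast this
    rw [h2]
    exact hYf
  have hc2 : ((Icc (-⌊Y⌋) ⌊Y⌋).card : ℝ) ≤ 3 * Y := by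
    rw [Int.card_Icc]
    have : ((⌊Y⌋ + 1 - -⌊Y⌋).toNat : ℤ) = 2 * ⌊Y⌋ + 1 := by omega
    have h2 : (((⌊Y⌋ + 1 - -⌊Y⌋).toNat : ℕ) : ℝ) = 2 * (⌊Y⌋ : ℝ) + 1 := by exact_mod_cast this
    rw [h2]
    linarith
  have hScard : (S.card : ℝ) ≤ (K * (N : ℝ) ^ ε) ^ 2 * (Y * (3 * Y)) := by
    rw [hS, card_product, card_product]
    push_cast
    exact mul_le_mul hEcard (mul_le_mul hc1 hc2 (by positivity) (by linarith)) (by positivity)
      (by positivity)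
  have h1 : (((Icc 1 R).filter (fun w => w ∈ Bad θ C κ N H)).card : ℝ) ≤ S.card := by
    exact_mod_cast (card_le_card hsub).trans card_image_le
  refine h1.trans (hScard.trans (le_of_eq ?_))
  have h2 : (N : ℝ) ^ (κ + 1 / 2) = ((N : ℝ) ^ ε) ^ 2 * (Y * Y) := by
    rw [hY, ← Real.rpow_natCast ((N : ℝ) ^ ε) 2, ← Real.rpow_mul hN0.le, ← Real.rpow_add hN0,
      ← Real.rpow_add hN0]
    congr 1
    rw [hε]
    push_cast
    ring
  rw [h2]
  ring

/-- `π` and `e` are moderate. For all moderate `θ > 0` there is `C > 0` such that for all `B ≥ 0`, `0 ≤ κ < 1 / 2`, all `f`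
which take each positive value at most `T` times at the primes, all `U` and all large `N`, for all `m ≤ N` but
`N / (log N)^U`: for EVERY `w` with `1 ≤ w ≤ N^B` and `f(p) ∣ w` for all primes `p > exp (√(log N))` which divide `m` exactly
once, and ALL integers `n = a w + h ≥ 2` with `1 ≤ a ≤ N^κ`, `|h| ≤ N^κ`, the number `n ^ θ` is not within
`exp (-C ((B + 1) log N)^15)` of any rational number `p / q` with `1 ≤ q ≤ N^(B + 1)`. The function `f(p) = p - 1` takes each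
value at most once, and every multiple of Carmichael's function `λ(m)` is divisible by `p - 1` for all `p ∣ m`. -/
theorem result :
    (Moderate Real.pi ∧ Moderate (Real.exp 1)) ∧
    (∀ θ : ℝ, 0 < θ → Moderate θ → ∃ C : ℝ, 0 < C ∧ ∀ B κ : ℝ, 0 ≤ B → 0 ≤ κ → κ < 1 / 2 →
      ∀ (f : ℕ → ℕ) (T : ℕ), FewTimes f T → ∀ U : ℕ, ∃ N₀ : ℕ, ∀ N : ℕ, N₀ ≤ N →
      ({m : ℕ | 1 ≤ m ∧ m ≤ N ∧ ¬ ∀ w : ℕ, 1 ≤ w → (w : ℝ) ≤ (N : ℝ) ^ B →
          Carries f (Real.exp √(Real.log N)) m w →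
          ∀ (n : ℕ) (a h : ℤ), 2 ≤ n → (n : ℤ) = a * w + h → 1 ≤ a → (a : ℝ) ≤ (N : ℝ) ^ κ →
            |(h : ℝ)| ≤ (N : ℝ) ^ κ → ∀ (p : ℤ) (q : ℕ), 1 ≤ q → (q : ℝ) ≤ (N : ℝ) ^ (B + 1) →
              Real.exp (-(C * ((B + 1) * Real.log N) ^ 15)) < |(n : ℝ) ^ θ - (p : ℝ) / (q : ℝ)|}.ncard : ℝ) ≤
        N / Real.log N ^ U) ∧
    FewTimes (fun p => p - 1) 1 ∧
    ∀ (y : ℝ) (m w : ℕ), ArithmeticFunction.carmichael m ∣ w → Carries (fun p => p - 1) y m w := by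
  classical
  refine ⟨NearRationalPowers.result.1, ?_, fewTimes_pred,
    fun y m w h p hp _ hpm _ => (pred_dvd_carmichael hp hpm).trans h⟩
  intro θ hθ hmod
  obtain ⟨C, hC0, hC⟩ := NearRationalPowers.result.2 θ hθ hmod
  refine ⟨C, hC0, fun B κ hB hκ hκ2 f T hf U => ?_⟩
  obtain ⟨C₀, hcount⟩ := bad_count (θ := θ) (C := C) hκ hκ2 hB (fun H hH => (hC H hH).2.2 H le_rfl)
  obtain ⟨N₁, hN₁⟩ := scale hf (θ := κ + 1 / 2) (B := B) (by linarith) hB C₀ U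
  obtain ⟨N₂, hN₂⟩ := exists_nat_ge ((2 : ℝ) ^ (1 / (1 - κ)))
  refine ⟨max (max N₁ N₂) 2, fun N hN => ?_⟩
  have hNN₁ : N₁ ≤ N := (le_max_left _ _).trans ((le_max_left _ _).trans hN)
  have hNN₂ : N₂ ≤ N := (le_max_right _ _).trans ((le_max_left _ _).trans hN)
  have hN2 : 2 ≤ N := (le_max_right _ _).trans hN
  have hNr : (2 : ℝ) ≤ N := by exact_mod_cast hN2
  have hN0 : (0 : ℝ) < N := by linarith
  have hN1 : (1 : ℝ) ≤ N := by linarith
  have hbig : 2 ≤ (N : ℝ) ^ (1 - κ) := by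
    have h1 : (2 : ℝ) ^ (1 / (1 - κ)) ≤ N := hN₂.trans (by exact_mod_cast hNN₂)
    have h2 := Real.rpow_le_rpow (by positivity) h1 (by linarith : (0 : ℝ) ≤ 1 - κ)
    rw [← Real.rpow_mul (by norm_num), one_div, inv_mul_cancel₀ (by linarith), Real.rpow_one] at h2
    exact h2
  set H : ℕ := ⌊(N : ℝ) ^ (B + 1)⌋₊ with hH
  refine le_trans ?_ (hN₁ N hNN₁ (Bad θ C κ N H) (hcount N hN2 _))
  rw [← Set.ncard_coe_finset]
  have hsub : {m : ℕ | 1 ≤ m ∧ m ≤ N ∧ ¬ ∀ w : ℕ, 1 ≤ w → (w : ℝ) ≤ (N : ℝ) ^ B →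
          Carries f (Real.exp √(Real.log N)) m w →
          ∀ (n : ℕ) (a h : ℤ), 2 ≤ n → (n : ℤ) = a * w + h → 1 ≤ a → (a : ℝ) ≤ (N : ℝ) ^ κ →
            |(h : ℝ)| ≤ (N : ℝ) ^ κ → ∀ (p : ℤ) (q : ℕ), 1 ≤ q → (q : ℝ) ≤ (N : ℝ) ^ (B + 1) →
              Real.exp (-(C * ((B + 1) * Real.log N) ^ 15)) < |(n : ℝ) ^ θ - (p : ℝ) / (q : ℝ)|} ⊆
      (((Icc 1 N).filter (fun m => ∃ w ∈ Bad θ C κ N H, 1 ≤ w ∧ (w : ℝ) ≤ (N : ℝ) ^ B ∧
        Carries f (Real.exp √(Real.log N)) m w) : Finset ℕ) : Set ℕ) := by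
    rintro m ⟨hm1, hm2, hm3⟩
    push Not at hm3
    obtain ⟨w, hw1, hw2, hw3, n, a, h, hn2, hnw, ha1, ha2, hh, p, q, hq1, hq2, hle⟩ := hm3
    rw [coe_filter, Set.mem_ofPred_eq, mem_Icc]
    refine ⟨⟨hm1, hm2⟩, w, ⟨n, a, h, ⟨hn2, ?_, p, q, hq1, Nat.le_floor hq2, hle.trans ?_⟩, ha1, ha2, hh, hnw⟩,
      hw1, hw2, hw3⟩
    · apply Nat.le_floor
      have h1 : (n : ℝ) = a * w + h := by exact_mod_cast hnw
      have h2 : (0 : ℝ) ≤ w := Nat.cast_nonneg _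
      have h3 : (a : ℝ) * w ≤ (N : ℝ) ^ κ * (N : ℝ) ^ B :=
        mul_le_mul ha2 hw2 h2 (by positivity)
      have h4 : (h : ℝ) ≤ (N : ℝ) ^ κ := (le_abs_self _).trans hh
      have h5 : (1 : ℝ) ≤ (N : ℝ) ^ B := Real.one_le_rpow hN1 hB
      have h6 : (0 : ℝ) ≤ (N : ℝ) ^ κ := by positivity
      have h7 : (N : ℝ) ^ (B + 1) = (N : ℝ) ^ κ * (N : ℝ) ^ B * (N : ℝ) ^ (1 - κ) := by
        rw [← Real.rpow_add hN0, ← Real.rpow_add hN0]
        congr 1
        ring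
      have h8 : (N : ℝ) ^ κ * (N : ℝ) ^ B * 2 ≤ (N : ℝ) ^ κ * (N : ℝ) ^ B * (N : ℝ) ^ (1 - κ) :=
        mul_le_mul_of_nonneg_left hbig (by positivity)
      have h9 : (N : ℝ) ^ κ ≤ (N : ℝ) ^ κ * (N : ℝ) ^ B := le_mul_of_one_le_right h6 h5
      rw [h1, h7]
      linarith
    · apply Real.exp_le_exp.2
      apply neg_le_neg
      have hHle : (H : ℝ) ≤ (N : ℝ) ^ (B + 1) := Nat.floor_le (by positivity)
      have hH2 : 2 ≤ H := by
        apply Nat.le_floor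
        calc ((2 : ℕ) : ℝ) = 2 := by norm_num
          _ ≤ (N : ℝ) := hNr
          _ = (N : ℝ) ^ (1 : ℝ) := (Real.rpow_one _).symm
          _ ≤ (N : ℝ) ^ (B + 1) := Real.rpow_le_rpow_of_exponent_le hN1 (by linarith)
      have hHr : (2 : ℝ) ≤ H := by exact_mod_cast hH2
      have hlog : Real.log H ≤ (B + 1) * Real.log N := by
        rw [← Real.log_rpow hN0]
        exact Real.log_le_log (by linarith) hHle
      have hlog0 : 0 ≤ Real.log H := Real.log_nonneg (by linarith)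
      exact mul_le_mul_of_nonneg_left (pow_le_pow_left₀ hlog0 hlog 15) hC0.le
  exact_mod_cast Set.ncard_le_ncard hsub (Finset.finite_toSet _)

end Pool.Agent.Results.MP_ee2255_nt.CarmichaelMultiples
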