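import Pool.Agent.N743.RP.Main
import Pool.Agent.N886.SE.Gen
import Pool.Agent.TH419.FS.Consts

/-!
# Integers `n` for which `n ^ π` or `n ^ e` is very close to a rational number: comparison of different scales

`E(H)` is the set of the integers `n`, `2 ≤ n ≤ H`, for which `n ^ θ` is within `exp (- C (log H) ^ 15)` of a rational
number with denominator at most `H`. For `θ = π`, `θ = e` and all `θ > 0` with `|q θ - p| ≥ exp (- κ q)`: either two
multiplicatively independent integers have rational powers, and then `n ^ θ` is rational for every member `n` of `E(H)`,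
`H` large, or there are arbitrarily long windows of scales without two multiplicatively independent members.

The proof uses the library's theorem on three integers (`Pool.Agent.N886.SE.three`), small exponents in the relation
between three multiplicatively dependent integers, and the gap between rational numbers.
-/

set_option autoImplicit false

open Filter

namespace Pool.Agent.Results.MP_ee2255_nt.ScaleDichotomy

/-- `|q θ - p| ≥ exp (- κ q)` for all integers `p` and `q ≥ 1`, for some constant `κ` -/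
def Moderate (θ : ℝ) : Prop :=
  ∃ κ : ℝ, ∀ q : ℕ, 1 ≤ q → ∀ p : ℤ, Real.exp (-(κ * q)) ≤ |(q : ℝ) * θ - p|

/-- `E(H)`: the integers `n`, `2 ≤ n ≤ H`, for which `n ^ θ` is within `exp (- C (log H) ^ 15)` of a rational number
`p / q` with `1 ≤ q ≤ H` -/
def Near (θ C : ℝ) (H : ℕ) : Set ℕ :=
  {n | 2 ≤ n ∧ n ≤ H ∧ ∃ (p : ℤ) (q : ℕ), 1 ≤ q ∧ q ≤ H ∧
    |(n : ℝ) ^ θ - (p : ℝ) / (q : ℝ)| ≤ Real.exp (-(C * Real.log H ^ 15))}

/-- two positive integers are multiplicatively independent -/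
def Independent (m n : ℕ) : Prop := ∀ i j : ℤ, (m : ℚ) ^ i * (n : ℚ) ^ j = 1 → i = 0 ∧ j = 0

/-- three positive integers are multiplicatively dependent -/
def Dependent (x m n : ℕ) : Prop :=
  ∃ i j k : ℤ, (i ≠ 0 ∨ j ≠ 0 ∨ k ≠ 0) ∧ (x : ℚ) ^ i * (m : ℚ) ^ j * (n : ℚ) ^ k = 1

/-- two multiplicatively independent integers `m, n ≥ 2` have rational powers `m ^ θ`, `n ^ θ` -/
def TwoRationalPowers (θ : ℝ) : Prop :=
  ∃ m n : ℕ, 2 ≤ m ∧ 2 ≤ n ∧ Independent m n ∧ (∃ a : ℚ, (m : ℝ) ^ θ = a) ∧ ∃ b : ℚ, (n : ℝ) ^ θ = b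

theorem moderate_of {θ c s : ℝ} (hc : 0 < c) (hs : 0 ≤ s)
    (h : ∀ q : ℕ, 1 ≤ q → ∀ p : ℤ, c ≤ (q : ℝ) ^ s * |(q : ℝ) * θ - p|) : Moderate θ := by
  refine ⟨|Real.log c| + s, fun q hq p => ?_⟩
  have hqR : (1 : ℝ) ≤ q := by exact_mod_cast hq
  have hq0 : (0 : ℝ) < q := by linarith
  have h1 := h q hq p
  have hlq : Real.log q ≤ q := (Real.log_le_sub_one_of_pos hq0).trans (by linarith)
  have h2 : (q : ℝ) ^ s = Real.exp (Real.log q * s) := Real.rpow_def_of_pos hq0 s
  have h3 : Real.exp (-((|Real.log c| + s) * q)) * (q : ℝ) ^ s ≤ c := by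
    rw [h2, ← Real.exp_add]
    calc Real.exp (-((|Real.log c| + s) * q) + Real.log q * s) ≤ Real.exp (Real.log c) := by
          refine Real.exp_le_exp.2 ?_
          have e1 : Real.log q * s ≤ q * s := mul_le_mul_of_nonneg_right hlq hs
          have e2 : |Real.log c| ≤ |Real.log c| * q := le_mul_of_one_le_right (abs_nonneg _) hqR
          have e3 := neg_abs_le (Real.log c)
          nlinarith
      _ = c := Real.exp_log hc
  have h4 : 0 < (q : ℝ) ^ s := Real.rpow_pos_of_pos hq0 s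
  have h5 : Real.exp (-((|Real.log c| + s) * q)) * (q : ℝ) ^ s ≤ |(q : ℝ) * θ - p| * (q : ℝ) ^ s := by
    refine h3.trans (h1.trans (le_of_eq (mul_comm _ _)))
  exact le_of_mul_le_mul_right h5 h4

theorem moderate_pi : Moderate Real.pi := by
  obtain ⟨c, hc, h⟩ := Pool.Agent.TH419.FS.meas_pi
  exact moderate_of hc (by norm_num) h

theorem moderate_e : Moderate (Real.exp 1) := by
  obtain ⟨c, hc, h⟩ := Pool.Agent.TH419.FS.meas_exp (η := 1) one_pos
  exact moderate_of hc (by norm_num) h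

/-- `π` and `e` are moderate. Let `θ > 0` be moderate and `M ≥ 2`. There are `C > 0` and `H₀` such that, with
`E(H) = Near θ C H`:

1. any three members of `E(H)` are multiplicatively dependent (`H ≥ 2`);
2. if two multiplicatively independent integers have rational powers, then for all large `H` every member `n` of
   `E(H)` has a rational power `n ^ θ`;
3. otherwise, if `H ≥ H₀` and `m, n ∈ E(H)` are multiplicatively independent, there is `Z ≥ H` such that for
   `H ≤ Y ≤ Z ^ M` every `x ∈ E(Y)` is multiplicatively dependent on `m, n`, and for `Z < Y ≤ Z ^ M` no two members of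
   `E(Y)` are multiplicatively independent;
4. otherwise, for arbitrarily large `Z`, no two members of `E(Y)` are multiplicatively independent for
   `Z < Y ≤ Z ^ M`;
5. two multiplicatively independent integers have rational powers if and only if `E(H)` contains two multiplicatively
   independent integers for all large `H`. -/
theorem result : (Moderate Real.pi ∧ Moderate (Real.exp 1)) ∧
    ∀ θ : ℝ, 0 < θ → Moderate θ → ∀ M : ℕ, 2 ≤ M → ∃ C : ℝ, 0 < C ∧ ∃ H₀ : ℕ,
      (∀ H : ℕ, 2 ≤ H → ∀ x ∈ Near θ C H, ∀ m ∈ Near θ C H, ∀ n ∈ Near θ C H, Dependent x m n) ∧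
      (TwoRationalPowers θ → ∀ᶠ H : ℕ in atTop, ∀ n ∈ Near θ C H, ∃ a : ℚ, (n : ℝ) ^ θ = a) ∧
      (¬ TwoRationalPowers θ → ∀ H : ℕ, H₀ ≤ H → ∀ m ∈ Near θ C H, ∀ n ∈ Near θ C H, Independent m n →
        ∃ Z : ℕ, H ≤ Z ∧
        (∀ Y : ℕ, H ≤ Y → Y ≤ Z ^ M → ∀ x ∈ Near θ C Y, Dependent x m n) ∧
        ∀ Y : ℕ, Z < Y → Y ≤ Z ^ M → ∀ x ∈ Near θ C Y, ∀ y ∈ Near θ C Y, ¬ Independent x y) ∧
      (¬ TwoRationalPowers θ → ∀ N : ℕ, ∃ Z : ℕ, N ≤ Z ∧
        ∀ Y : ℕ, Z < Y → Y ≤ Z ^ M → ∀ x ∈ Near θ C Y, ∀ y ∈ Near θ C Y, ¬ Independent x y) ∧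
      (TwoRationalPowers θ ↔
        ∀ᶠ H : ℕ in atTop, ∃ x ∈ Near θ C H, ∃ y ∈ Near θ C H, Independent x y) := by
  refine ⟨⟨moderate_pi, moderate_e⟩, ?_⟩
  rintro θ hθ ⟨κ, hκ⟩ M hM
  have hκ' : ∀ q : ℕ, 1 ≤ q → ∀ p : ℤ, Real.exp (-(max κ 0 * q)) ≤ |(q : ℝ) * θ - p| := fun q hq p =>
    (Real.exp_le_exp.2 (neg_le_neg (mul_le_mul_of_nonneg_right (le_max_left _ _) (Nat.cast_nonneg _)))).trans
      (hκ q hq p)
  have hC₀ : 0 < (max κ 0 + 2) * (1001 * (1 + θ)) ^ 15 := by
    have : 0 ≤ max κ 0 := le_max_right _ _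
    positivity
  exact Pool.Agent.N743.RP.main hθ hC₀ (fun H hH a ha b hb c hc =>
    Pool.Agent.N886.SE.three hθ (le_max_right _ _) hκ' le_rfl hH ha.1 hb.1 hc.1 ha.2.1 hb.2.1 hc.2.1 ha.2.2 hb.2.2
      hc.2.2) M hM

end Pool.Agent.Results.MP_ee2255_nt.ScaleDichotomy
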